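import Pool.Agent.H857.SG.Full
import Pool.Agent.H857.SG.Equiv
import Pool.Agent.H857.SX.Defs

/-!
# MP_ee618e_ag: all abelian varieties of even dimension over finite fields whose real Frobenius field
has the full symmetric group

Let `m ≥ 3`, let `q = p ^ a` be a prime power, and let `W` be the set of the Weil polynomials of
degree `4 m` relative to `q` with integral Newton polygons (`weilPolynomials p a (2 * m)`). It
contains the characteristic polynomials of the Frobenius endomorphisms `π` of all abelian varieties
`A` of dimension `2 m` over the field with `q` elements, which determine them up to isogeny (Weil,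
Tate). Consider the `f` in `W` for which the real field `ℚ(π + q / π)` has degree `2 m` and a
normal closure with the group `S_(2 m)` (`HasGenericRealField`); there is no condition on the Newton
polygon, on the field `ℚ(π)` and on its imaginary quadratic subfields.

There are constants `C > 0` and `M > 0`, which depend only on `m`, such that for all prime powers `q`:

1. `W` is finite, of the exact order of magnitude `√q ^ (m (2 m + 1))`, and the proportion of the `f`
   without `HasGenericRealField` is at most `C q ^ (- 1 / 6) log q`.
2. If `f` has the symmetric group and there are no exotic Tate classes on the powers of `A`, the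
   formula of Tate holds for all powers of `A`, in all codimensions, over all extensions of the field
   with `q ^ M` elements: for the zeta function and the products of divisor classes
   (`PolesOfAllPowers`), and for the Chow groups and every Weil cohomology (`TateForPowers`).
3. If `f` has the symmetric group and there are exotic Tate classes on a power of `A`, then `A` is
   of Weil type (`OfWeilType`); all Tate classes on all powers of `A`, over all extensions of the
   field with `q ^ M` elements, are polynomials in the Tate classes of codimensions one and `m`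
   (`GeneratedByWeilClasses`), and the conjecture of Tate for all powers of `A`, in all codimensions,
   follows from its part in codimension `m` (`TateFromCodim`).
4. The number of the `f` in 3 is at most `C √q ^ (order m)`, where `order m` is `10` for `m = 3` and
   `m ^ 2` for `m ≥ 4`.
5. If `q > C`, there are at least `√q ^ (order m) / C` elements `f` of `W` with the symmetric group
   which are ordinary, irreducible and of Weil type, such that there are exotic Tate classes of
   codimension `m` on `A` itself over the field with `q` elements (`ExoticInCodim`), and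
   `GeneratedByWeilClasses` and `TateFromCodim` hold for the field with `q` elements.

So for the generic `f` the Weil classes are the only obstruction to the conjecture of Tate, this
occurs for a number of isogeny classes of the exact order of magnitude `√q ^ (order m)`, and
everything else is algebraic. The number `M` is universal.

Idea of the proof. The Galois group of `f` acts on the `2 m` pairs of conjugate roots by the full
symmetric group, so it is an extension of `S_(2 m)` by a stable subgroup of the group of the sign
changes, which for `2 m ≥ 5` forces every relation between the roots, beyond the trivial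
ones, to be a multiple of `∏ β i = ζ q ^ m`, with one root of each pair. Then the group permutes the
`β i` up to a simultaneous complex conjugation, which gives the factorisation over an imaginary
quadratic field. The density follows from the large sieve with three factorisation patterns modulo
the primes, and the counts from the parametrisation of the polynomials of Weil type.

The statements of the steps (`Pool.Agent.H857.SG.Core`, `Pool.Agent.H857.WT.Core`,
`Pool.Agent.H857.EF.Core`) were proved by members of the team: helpers 53, 79, 111, 113, 115, 120,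
122, 142, 168, 229, 233, 271, 294, 295, 297, 307, 333, 337, 342, 344, 348, 358, 390, 548, 628, 643,
650, 686, 721, 857, 864, 870, 955, 969 and 980.
-/

set_option autoImplicit false

namespace Pool.Agent.Results.MP_ee618e_ag.GenericRealField

open Polynomial Pool.Agent.H857.EF Pool.Agent.H857.WT Pool.Agent.H857.SG Pool.Agent.H857.SX

/-- **Abelian varieties with generic real Frobenius fields.** -/
theorem result (m : ℕ) (hm : 3 ≤ m) : ∃ C : ℝ, 0 < C ∧ ∃ M : ℕ, 0 < M ∧
    ∀ (p : ℕ) [Fact p.Prime] (a : ℕ), 0 < a →
      -- all isogeny classes, and those without the symmetric group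
      ((weilPolynomials p a (2 * m)).Finite ∧
        Real.sqrt ((p : ℝ) ^ a) ^ (m * (2 * m + 1)) ≤ C * (weilPolynomials p a (2 * m)).ncard ∧
        (weilPolynomials p a (2 * m)).ncard ≤ C * Real.sqrt ((p : ℝ) ^ a) ^ (m * (2 * m + 1)) ∧
        ({f ∈ weilPolynomials p a (2 * m) | ¬ HasGenericRealField (p ^ a) (2 * m) f}.ncard : ℝ) ≤
          C * (Real.log ((p : ℝ) ^ a) * ((p : ℝ) ^ a) ^ (-(1 / 6) : ℝ)) *
            (weilPolynomials p a (2 * m)).ncard) ∧
      -- no exotic classes
      (∀ f ∈ weilPolynomials p a (2 * m), HasGenericRealField (p ^ a) (2 * m) f →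
        ¬ ExoticOnPower (p ^ a) f → ∃ g : ℤ[X], IsPowerPoly f M g ∧
          PolesOfAllPowers ((p ^ a) ^ M) g ∧ TateForPowers ((p ^ a) ^ M) g) ∧
      -- exotic classes
      (∀ f ∈ weilPolynomials p a (2 * m), HasGenericRealField (p ^ a) (2 * m) f →
        ExoticOnPower (p ^ a) f → OfWeilType (p ^ a) m f ∧ ∃ g : ℤ[X], IsPowerPoly f M g ∧
          GeneratedByWeilClasses m ((p ^ a) ^ M) g ∧ TateFromCodim m ((p ^ a) ^ M) g) ∧
      -- the number of the isogeny classes with exotic classes
      ({f ∈ weilPolynomials p a (2 * m) | HasGenericRealField (p ^ a) (2 * m) f ∧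
        ExoticOnPower (p ^ a) f}.ncard : ℝ) ≤ C * Real.sqrt ((p : ℝ) ^ a) ^ order m ∧
      (C < (p : ℝ) ^ a → Real.sqrt ((p : ℝ) ^ a) ^ order m ≤ C *
        ({f ∈ weilPolynomials p a (2 * m) | HasGenericRealField (p ^ a) (2 * m) f ∧
          IsCoprime (f.coeff (2 * m)) ((p ^ a : ℕ) : ℤ) ∧ Irreducible f ∧
            OfWeilType (p ^ a) m f ∧ ExoticInCodim (p ^ a) m f ∧ ExoticOnPower (p ^ a) f ∧
            GeneratedByWeilClasses m (p ^ a) f ∧ TateFromCodim m (p ^ a) f}.ncard : ℝ)) := by
  simp only [exoticOnPower_iff, hasGenericRealField_iff, generatedByWeilClasses_iff,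
    polesOfAllPowers_iff]
  obtain ⟨C, hC, M, hM, h⟩ := main Pool.Agent.H337.SGb1.b1 b1r all_b3 Pool.Agent.H980.SG4.b4
    Pool.Agent.H548.SGB5.b5 Pool.Agent.H980.SG.b6 Pool.Agent.H79.SGB7a.b7a
    Pool.Agent.H348.SGb7b.b7b Pool.Agent.H333.SG.b7c all_b8 all_b9c all_b9e
    Pool.Agent.H233.EF.s3 s13 s17 Pool.Agent.H643.EF.s18
    all_w3 all_w8 Pool.Agent.H628.WTw9.w9 Pool.Agent.H628.WTw9.w10
    Pool.Agent.H229.WT.w11 Pool.Agent.H643.WT.w12 Pool.Agent.H686.WT.w13 Pool.Agent.H297.WT.w14
    Pool.Agent.H168.WTW16.w16 Pool.Agent.H342.WTc.w17 all_w18 m hm
  refine ⟨C, hC, M, hM, fun p _ a ha => ?_⟩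
  obtain ⟨h1, h2, h3, h4, h5⟩ := h p a ha
  refine ⟨h1, h2, h3, h4, fun hq => (h5 hq).trans (mul_le_mul_of_nonneg_left ?_ hC.le)⟩
  have h6 : {f ∈ Pool.Agent.H857.PA.newtonWeil p a (2 * m) |
        HasSymmetricGroup (p ^ a) (2 * m) f ∧ IsGood (p ^ a) m f ∧ HasExotic (p ^ a) f} ⊆
      {f ∈ weilPolynomials p a (2 * m) | HasSymmetricGroup (p ^ a) (2 * m) f ∧
          IsCoprime (f.coeff (2 * m)) ((p ^ a : ℕ) : ℤ) ∧ Irreducible f ∧
            OfWeilType (p ^ a) m f ∧ ExoticInCodim (p ^ a) m f ∧ HasExotic (p ^ a) f ∧
            GeneratedInCodim m (p ^ a) f ∧ TateFromCodim m (p ^ a) f} := fun f hf =>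
    ⟨hf.1, hf.2.1, hf.2.2.1.ordinary, hf.2.2.1.irreducible, hf.2.2.1.weil, hf.2.2.1.exotic,
      hf.2.2.2, hf.2.2.1.generated, hf.2.2.1.tate⟩
  have hfin : (weilPolynomials p a (2 * m)).Finite := h1.1
  exact_mod_cast Set.ncard_le_ncard h6 (hfin.subset fun f hf => hf.1)

end Pool.Agent.Results.MP_ee618e_ag.GenericRealField
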