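import Pool.Agent.H856.PR.KloProd
import Pool.Agent.H856.WD.Clo
import Pool.Agent.H856.WD.SysProof

/-!
# The Tate classes on products of abelian varieties over finite fields with Frobenius of degree two
# over a field with one place above `p`

Let `E` be a number field, Galois over `ℚ`, totally real or CM, with only one place above the prime number
`p`, and `q = p ^ a`. Let `P i`, `i ∈ ι`, be finitely many monic polynomials of degree two with
coefficients in the ring of integers of `E`, such that all conjugates of their roots have the absolute
value `√q`. Examples: `A i` is an abelian variety over the field with `q` elements, of dimension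
`[E : ℚ]`, with multiplication by `E` (the same unit), and `P i` the characteristic polynomial of its
Frobenius on the first cohomology, which is free of rank two over `E ⊗ ℚ_l`. More generally let `A` be an
abelian variety of any dimension such that all eigenvalues of its Frobenius have degree at most two over
`E`; a power of `A` has multiplication by `E`, and the characteristic polynomial over `E` is a product of
polynomials `P i` as above (some `P i` may be equal). For `E = ℚ` these are the products of abelian
varieties whose Frobenius is in an imaginary quadratic field or supersingular.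

For an embedding `φ` of `E` let `Γ ((i, φ), 0)` and `Γ ((i, φ), 1)` be the roots of `φ (P i)`, so that the
`Γ x` are the eigenvalues of the Frobenius on the first cohomology `H` of the product `B` of the `A i`, and
the cohomology of all powers of `B` is a direct summand of a sum of tensor powers of `H`. As there is
only one place of `E` above `p`, the two slopes of `P i` are `s i`, `1 - s i`. Suppose that `s i < 1 / 2`
(`NotSS`); then `a [E : ℚ] (s i)` is the valuation `ht` of the norm of the linear coefficient of `P i`.

**Theorem.** The following two assertions are equivalent.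

* All Tate classes in all tensor powers of `H`, over all finite extensions of the ground field, are
  generated by those of degree two (every `IsDivisorSystem` contains them: products, permutations and
  endomorphisms of `H` which commute with a power of the Frobenius may be used).
* (`SlopeCondition`) If `s i ≠ 1 / 2`, `s j ≠ 1 / 2` and the quadratic extensions of `E` given by `P i` and
  `P j` are conjugate (for the discriminants and an automorphism `σ` of `E`: `disc (P i) σ (disc (P j))`
  is a square in `E`), then `s i = s j`.

Moreover the Tate classes form a system with the same properties, so they are the smallest one if these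
assertions are true.

Hence, by the theorem of Tate (1966) on divisors, under the slope condition the Tate conjecture is true
for all products of powers of the `A i`, in all codimensions, over all finite extensions of the ground
field. If the condition is not satisfied, there are Tate classes on such a product which are not in the
algebra generated by divisor classes, even with the action of all correspondences of degree zero. For
`E = ℚ` and elliptic curves all `s i` are `0` or `1 / 2`, and this is the theorem of Spiess (1999) on the
products of elliptic curves. For other `E` the slope condition is satisfied if there are no two different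
slopes below `1 / 2`: e.g. for all products of ordinary abelian varieties with multiplication by `E`, of
dimension `[E : ℚ]` (such as all points of the ordinary locus of the reductions of Hilbert modular
varieties of Galois totally real fields in which `p` is inert or totally ramified), and of these with
supersingular ones; or if the different slopes belong to non-conjugate quadratic extensions of `E`.

**Kloosterman curves** (`E = ℚ (ζ_p)`): let `F` be a finite field of characteristic `p`, and `b i`
nonzero elements of `F`. The Jacobian of the curve `y ^ p - y = b i * x + 1 / x` has dimension `p - 1`, and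
the eigenvalues of the Frobenius are given by Kloosterman sums (`KloSpectrum`; they exist). They are
congruent to `- 1`, so all these Jacobians are ordinary, and all Tate classes on all products of them are
generated by those of degree two. So the Tate conjecture is true for all products of the curves
`y ^ p - y = b x + 1 / x`, for all `p`, over all finite fields of characteristic `p`.

The hand-in `FieldsWithOnePlace` (`MP_7b53ad_ag`) is about the powers of one `A`, for which there is no
slope condition.

The proof. Let `v` be a place above `p` of the algebraic numbers. As there is one place of `E` above `p`,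
every place above `p` is `v g` for an automorphism `g` which fixes `E`. Such `g` permute the two roots of
`φ (P i)`, by a character `χ` of order two or one; so for `x = ((i, φ), k)` with `s i ≠ 1 / 2` the
function `v (g Γ x) - v (q) / 2` of `g` is `± (1 / 2 - s i) v (q) χ (g)`. By the linear independence of
characters a relation between the `Γ x` (a product which is a power of `q` up to a root of unity) is a
sum of relations with the same `χ`. If all slopes in it are the same, there are two letters with opposite
signs, and their product is `q` up to a root of unity. If there are different slopes `s`, `s'` for the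
same `χ`, then `Γ x ^ u Γ y ^ v` is a relation, where `u / v = (1 - 2 s') / (1 - 2 s)` is not one. The
characters for `φ`, `φ'` are equal if and only if the product of the discriminants is a square.
-/

set_option autoImplicit false

open Polynomial NumberField

namespace Pool.Agent.Results.MP_ee618e_ag.ProductsWithOnePlace

open Pool.Agent.H856.WD Pool.Agent.H856.WE Pool.Agent.H856.PR

/-- **The slope condition**: if the quadratic extensions of `E` given by `P i` and `P j` are
conjugate, the slopes are equal or one of them is `1 / 2`. -/
def SlopeCondition (p a : ℕ) {E : Type} [Field E] [NumberField E] {ι : Type} (P : ι → E[X]) : Prop :=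
  ∀ (i j : ι) (σ : E ≃+* E), NotSS p a (P i) → NotSS p a (P j) →
    IsSquare (disc (P i) * σ (disc (P j))) → ht p (P i) = ht p (P j)

open Classical in
/-- All Tate classes in the tensor powers are generated by those of degree two. -/
def GeneratedInDegreeTwo {T : Type} [Fintype T] (q : ℂ) (Γ : T × Fin 2 → ℂ) : Prop :=
  ∀ A, IsDivisorSystem q Γ A → ∀ (n : ℕ) (S : Tens T 2 n), IsTate q Γ S → S ∈ A n

open Classical in
/-- The Tate classes form a system of classes. -/
def TateClassesAreSystem {T : Type} [Fintype T] (q : ℂ) (Γ : T × Fin 2 → ℂ) : Prop :=
  IsDivisorSystem q Γ (tateSub q Γ) ∧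
    ∀ (n : ℕ) (S : Tens T 2 n), S ∈ tateSub q Γ n → S = 0 ∨ IsTate q Γ S

lemma system {T : Type} [Fintype T] (q : ℂ) (Γ : T × Fin 2 → ℂ) (hq : q ≠ 0)
    (h : DetRel q Γ) : TateClassesAreSystem q Γ := by
  classical
  obtain ⟨h1, h2⟩ := sys T 2 q Γ hq h
  exact ⟨⟨h1.unit, h1.prod, h1.perm, h1.endo, h1.tate⟩, h2⟩

lemma change_dec {T : Type} [Fintype T] (i1 i2 : DecidableEq T) {q : ℂ} {Γ : T × Fin 2 → ℂ}
    {A : ∀ n, Submodule ℂ (Tens T 2 n)} (h : @IsDivisorSystem T _ i1 2 q Γ A) :
    @IsDivisorSystem T _ i2 2 q Γ A := by
  have e : i1 = i2 := Subsingleton.elim _ _
  subst e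
  exact h

lemma generated {T : Type} [Fintype T] (q : ℂ) (Γ : T × Fin 2 → ℂ) (hq : q ≠ 0)
    (hne : ∀ x, Γ x ≠ 0) (h : DetRel q Γ) (hA : CaseA q Γ) : GeneratedInDegreeTwo q Γ := by
  classical
  intro A hA' n S hS
  exact clo T 2 q Γ A (by norm_num) hq hne (hA'.cycle hq h (by norm_num) le_rfl) h (Or.inl hA) n S hS

/-- **The Tate classes on the products of abelian varieties of degree two over a field `E` with one
place above `p`**, and on the products of Kloosterman curves. -/
theorem result :
    -- the criterion; `c` is the complex conjugation of `E` (`E` is totally real or CM)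
    (∀ (p a : ℕ) [Fact p.Prime], 0 < a → ∀ (E : Type) [Field E] [NumberField E] [IsGalois ℚ E]
      (c : E →+* E), (∀ (φ : E →+* ℂ) (x : E), φ (c x) = (starRingEnd ℂ) (φ x)) →
      (∀ I J : Ideal (𝓞 E), I.IsPrime → J.IsPrime → (p : 𝓞 E) ∈ I → (p : 𝓞 E) ∈ J → I = J) →
      ∀ (ι : Type) [Fintype ι] (P : ι → E[X]), (∀ i, (P i).Monic) → (∀ i, (P i).natDegree = 2) →
      (∀ i n, IsIntegral ℤ ((P i).coeff n)) → ∀ Γ : (ι × (E →+* ℂ)) × Fin 2 → ℂ,
      (∀ i (φ : E →+* ℂ), (P i).map φ = ∏ k, (X - C (Γ ((i, φ), k)))) →
      (∀ x, ‖Γ x‖ ^ 2 = (p : ℝ) ^ a) →
      (GeneratedInDegreeTwo ((p : ℂ) ^ a) Γ ↔ SlopeCondition p a P) ∧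
        TateClassesAreSystem ((p : ℂ) ^ a) Γ) ∧
    -- Kloosterman curves
    (∀ (p : ℕ) [Fact p.Prime] (F : Type) [Field F] [Finite F] [Algebra (ZMod p) F] (ι : Type)
      [Fintype ι] (b : ι → F), (∀ i, b i ≠ 0) →
      (∃ Γ, KloSpectrum p F b Γ) ∧ ∀ Γ, KloSpectrum p F b Γ →
        GeneratedInDegreeTwo (Nat.card F : ℂ) Γ ∧ TateClassesAreSystem (Nat.card F : ℂ) Γ) := by
  refine ⟨?_, ?_⟩
  · intro p a hp ha E _ _ _ c hc hu ι _ P hPm hPd hPi Γ hΓ hab
    have hp0 : (p : ℂ) ≠ 0 := by exact_mod_cast hp.out.ne_zero
    have hq : (p : ℂ) ^ a ≠ 0 := pow_ne_zero _ hp0
    have hne : ∀ x, Γ x ≠ 0 := by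
      intro x hx
      have h8 := hab x
      rw [hx, norm_zero, zero_pow two_ne_zero] at h8
      exact hq (by exact_mod_cast h8.symm)
    obtain ⟨h1, h2, h3⟩ := crit sig sq exo p a ha E c hc hu ι P hPm hPd hPi Γ hΓ hab
    refine ⟨⟨?_, fun h => generated _ Γ hq hne h1 (h2 h)⟩, system _ Γ hq h1⟩
    intro hg
    by_contra hcon
    obtain ⟨A, hA, n, S, hS, hnot⟩ := h3 hcon
    exact hnot (hg A (change_dec _ _ hA) n S hS)
  · intro p hp F _ _ _ ι _ b hb
    refine ⟨exists_spectrum p F ι b hb, fun Γ hΓ => ?_⟩
    have hcard : Nat.card F = p ^ Module.finrank (ZMod p) F := by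
      rw [Module.natCard_eq_pow_finrank (K := ZMod p), Nat.card_zmod]
    have ha : 0 < Module.finrank (ZMod p) F := by
      have : Module.Finite (ZMod p) F := Module.Finite.of_finite
      exact Module.finrank_pos
    have hp0 : (p : ℂ) ≠ 0 := by exact_mod_cast hp.out.ne_zero
    have hcC : ((Nat.card F : ℕ) : ℂ) = (p : ℂ) ^ Module.finrank (ZMod p) F := by
      rw [hcard]
      push_cast
      rfl
    have hq : ((Nat.card F : ℕ) : ℂ) ≠ 0 := by
      rw [hcC]
      exact pow_ne_zero _ hp0
    have hne : ∀ x, Γ x ≠ 0 := by
      rintro ⟨⟨i, φ⟩, k⟩ h0
      obtain ⟨h1, -, -, -⟩ := klo2 p F (b i) (φ (zt p)) (hb i)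
        ((zt_prim p).map_of_injective φ.injective) _ _ (fun L => hΓ i φ L)
      apply hq
      rw [← h1]
      fin_cases k
      · rw [show Γ ((i, φ), 0) = 0 from h0, zero_mul]
      · rw [show Γ ((i, φ), 1) = 0 from h0, mul_zero]
    obtain ⟨h1, h2⟩ := kloprod p (Module.finrank (ZMod p) F) F hcard ha ι b hb Γ hΓ
    rw [← hcC] at h1 h2
    exact ⟨generated _ Γ hq hne h1 h2, system _ Γ hq h1⟩

end Pool.Agent.Results.MP_ee618e_ag.ProductsWithOnePlace
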