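import Mathlib
import Pool.Agent.H298.Core.NormSub
import Pool.Agent.H298.Core.Double

/-!
# All Tate classes on the products of powers of abelian varieties over finite fields with CM fields
with irreducible odd part or primitive core

Let `q = p ^ a`, and let `π i` be finitely many Weil `q`-numbers which generate CM fields `K i`; by
Honda and Tate they belong to simple abelian varieties over the field with `q` elements. We describe
**all** Tate classes, over all extensions of the base field, on all abelian varieties which are
isogenous to products of powers of them, also if there are exotic ones, and decide when there are
exotic ones.

**In short.** Let `K` be a CM field of degree `2 g`, `K₀` its maximal real subfield and `2 ^ v`, `1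
≤ v ≤ g`, the degree of the Galois closure of `K` over the Galois closure of `K₀` (typically `v =
g`). The theorem is for the Weil numbers `π` all powers of which generate `K`, in the following
cases (`FieldCriteria`), among others: **(a) `v > g / 3`; (b) the slopes of `π` have odd
denominators, for example `π` is ordinary, and `v > g / 4`, or `g` is the product of two prime
numbers and `v > 1`, or `g` is prime, or `K` has few divisors in the sense of `FewDivisors`; (c) the
Galois group of `K₀` is doubly transitive, and `g` is odd, or `g - 1` is a prime number, or at least
`g` is none of the numbers `10, 16, 26, 28, 36, …` (`TwoGraphDegree`); or it is triply transitive,
for example the symmetric group, or the alternating group if `g ≥ 5`, `g ≥ 3`; and no norm of `π` to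
an imaginary quadratic field is supersingular** (this is
so if `g` is odd and `π` is ordinary). The general hypothesis (`IsCoreWeil`) is explained below.

**Cores.** Let `X` be the set of the complex embeddings of the CM field `K`, `[K : ℚ] = 2 g`. The
automorphisms of `ℂ` which map all elements of `X` to themselves or to their complex conjugates are
called sign changes. The first core of `φ : X` consists of the `ψ : X` which are moved by the same
sign changes as `φ`. If one uses all automorphisms which map the elements of the first core to
themselves or to their conjugates, one obtains the second core, inside of the first one, and so on
(`coreOf`). The cores of the same index have the same number `2 c` of elements, `c` divides `g`, and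
the smallest such number `c` is the core number of `K`. It satisfies `c ≤ g / v`, and if a prime
number `q` divides the discriminant of `K`, but not the discriminant of the maximal real subfield,
then `q ^ c` divides the discriminant of `K`. `FewDivisors` says that all divisors of `g` which
satisfy these conditions are one or prime.

**The fields.** We suppose that each `π = π i` is of *core type* (`CoreType`; this is the new case):
all powers `π ^ n`, `n ≥ 1`, generate `K = K i` (so that the abelian variety is geometrically simple
with commutative endomorphism ring, for instance), and

* the rational functions on `X` which change their sign under complex conjugation are an irreducible
  representation of the automorphisms of `ℂ` (`OddIrreducible`), for example because the core number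
  of `K` is one; or
* there is a core with `c` pairs of embeddings, and `c` is a prime number, or `c = [K : F]` for a
  subfield `F`, not totally real, such that the automorphisms of `ℂ` act doubly transitively on the
  extensions to `K` of an embedding of `F` (`PrimitiveCore`);

or that `π` is of one of the types which are known from the library: dominating slopes,
pair-transitive type, flip type. There are no conditions on the slopes of the `π i` of core type, on
the decomposition of `p`, the degree or the Galois group of `K i`. Embeddings of `K i` and `K j`,
for different `i` and `j`, are cross flipped: some automorphism of the complex numbers fixes one and
conjugates the other (no condition if there is only one field).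

**The norm classes.** A subfield `E` of `K i`, different from `K i` and not totally real, is of norm
type (`NormSub`) if for every embedding of `E` in the algebraic closure of the `p`-adic numbers the
sum of the normalised valuations `2 v (τ (π i)) - a`, `τ` running through its extensions to `K i`,
is zero; that is, the square of the norm of `π i` to `E` is a power of `p` times a root of unity.
The norm classes of `E` (`normClasses`) are the wedge products of eigenvectors of the Frobenius, one
with the eigenvalue `σ (π i)` for every embedding `σ` of `K i` which extends a given embedding of
`E`. They are Tate classes of Weil type, of degree `[K i : E]`, on powers of one simple abelian
variety.

**The theorem.** Let `V` (the first cohomology, coefficients extended to an algebraically closed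
field `Ω`) be a vector space with an endomorphism `Φ` (the Frobenius) which is diagonalisable with
eigenvalues among the conjugates of the `π i` (`HasEigenvalues`).

1. (`AllTateClasses`) A class of degree `2 m` is a Tate class over some extension of the base field
   **if and only if** it is a polynomial in the Tate classes of degree two over the base field
   (classes of divisors, by the theorem of Tate) and the norm classes of the subfields of norm type.
2. (`GeneratedInDegreeTwo`) All Tate classes on all these abelian varieties are polynomials in Tate
   classes of degree two over the base field **if and only if** no `K i` has a subfield of norm
   type; if there is one, then exotic Tate classes exist in the case when every conjugate has the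
   multiplicity two, in the codimension `[K i : E]`.
3. (`NormSubCriteria`) If `K i` has a primitive core with `c` pairs, one has to consider only the
   subfields `E` of index `c`; if the odd part is irreducible there are no subfields of norm type.
4. (`AllCriteria`) The cases (a), (b) and (c) above (`FieldCriteria`), the facts about the cores
   (`CoreFacts`), and the norms: there are no subfields of norm type if `c = 2`, or if `c` is odd
   and the slopes of `π i` have odd denominators (for example in the ordinary case).

So **the Tate conjecture holds for all powers of all these abelian varieties without subfields of
norm type**, of any dimension, and for the other ones it is reduced to the norm classes, in one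
degree `c` for each `i`. For instance, if `ℓ` divides the discriminant of a CM field `K` and `ℓ ^ 2`
does not, then it holds for all Weil numbers `π` in `K` with `ℚ(π ^ n) = K` for all `n`.

**What was known.** The theorem for dominating slopes, pair-transitive and flip type is
`ExoticCriterion` in the library (part 2 and one direction of part 1), whose machine is used; by it
the case of core type is reduced to the statement `tame_of_core`: the relations between the
conjugates of `π` come from one subfield. For primitive cores which are the whole set of embeddings
(`K` of degree `2 c`, `c` prime) this is due to Tankeev, Ribet, Lenstra and Zarhin; a different
condition (a place of a degree prime to `c`) is treated by `CoprimePlace` in this run.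

**The proof.** Let `r` be a relation: an odd function on the set `X` of embeddings, with integral
values, orthogonal to the translates of `w`, the slope of `φ (π)` minus one half. By the sign
changes one can cut `r` down, and multiply it by functions which are given by sign changes; this
gives, by induction on the size of the support and on the index of the core, relations which are
supported in one core and have there the same values as `r`, up to a common factor (`localize_mul`).
The automorphisms preserving the core act transitively on it. If it has `2 c` elements with a prime
number `c`, then a Sylow subgroup contains an element which has two orbits of length `c` on the
core, exchanged by the complex conjugation. Since the cyclotomic polynomial is irreducible, either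
`w (τ φ) = w (τ φ')` for all `τ` with two different `φ`, `φ'` of the core, and then a power of `π`
does not generate `K`; or all relations are constant on one orbit, the sums of `w` over its
translates are zero, and the orbit consists of the extensions of an embedding of a subfield `E` with
`[K : E] = c`, which is not totally real. In the doubly transitive case an average over a stabilizer
gives the same alternatives. So the relations are exactly the odd functions which come from `E`
(`relations_structure`). In the exterior algebra this gives the description of the Tate classes: one
splits off pairs of conjugate eigenvectors and norm classes.
-/

set_option autoImplicit false

universe u

namespace Pool.Agent.Results.MP_ee618e_ag.SmallCoreFields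

open NumberField Pool.Agent.H194R3.Tate Pool.Agent.Helper33Dom Pool.Agent.H298.Core

/-- **All Tate classes on the products of powers of abelian varieties over finite fields whose Weil
numbers lie in cross flipped CM fields with irreducible odd part or primitive core.** -/
theorem result (p : ℕ) [Fact p.Prime] (a : ℕ) {I : Type} [Finite I] (K : I → Type)
    [∀ i, Field (K i)] [∀ i, NumberField (K i)] [∀ i, IsCMField (K i)]
    (π : ∀ i, K i) (hint : ∀ i, IsIntegral ℤ (π i))
    (hgen : ∀ i, IntermediateField.adjoin ℚ {π i} = ⊤)
    (hweil : ∀ i, ∀ φ : K i →+* ℂ, ‖φ (π i)‖ ^ 2 = (p : ℝ) ^ a)
    (hπ : ∀ i, CoreType (π i) ∨ DominantSlopes p a (π i) ∨ PairTransitiveType (π i) ∨
      FlipType p a (π i))
    (hcross : ∀ i j, i ≠ j → ∀ (φ : K i →+* ℂ) (ψ : K j →+* ℂ), CrossFlipped φ ψ)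
    (Ω : Type u) [Field Ω] [IsAlgClosed Ω] [CharZero Ω] :
    AllTateClasses p a K π Ω ∧
    (GeneratedInDegreeTwo p a K π Ω ↔ ∀ i, ∀ E : Subfield (K i), ¬ NormSub p a (π i) E) ∧
    NormSubCriteria ∧ AllCriteria :=
  ⟨fun V _ _ Φ hΦ m x hx => tate_iff p a π hint hweil hπ hcross Φ hΦ m x hx,
    criterion_core p a π hint hgen hweil hπ hcross Ω, normSubCriteria_hold, allCriteria_hold⟩

end Pool.Agent.Results.MP_ee618e_ag.SmallCoreFields
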