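import Pool.Agent.H857.WT.Full
import Pool.Agent.H857.SX.Defs

/-!
# MP_ee618e_ag: the exact order of magnitude of the number of the abelian varieties of Weil type over
finite fields, in every even dimension, and the Tate classes on their powers

Let `m ≥ 2`, let `q = p ^ a` be a prime power, and let `W` be the set of the Weil polynomials of
degree `4 m` relative to `q` with integral Newton polygons (`weilPolynomials p a (2 * m)`). It
contains the characteristic polynomials of the Frobenius endomorphisms of all abelian varieties of
dimension `2 m` over the field with `q` elements (Weil), which determine them up to isogeny (Tate), and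
its ordinary elements are such characteristic polynomials (Honda, Tate).

The polynomial `f` in `W` is of Weil type (`OfWeilType`) if `f = h h̄` with coprime factors over an
imaginary quadratic field `K`, where `h` has the constant term `ζ q ^ m` with a root of unity `ζ`. Then
the highest exterior power of `H ^ 1 (A)` over `K ⊗ ℚ_ℓ` consists of Tate classes of codimension `m`,
the Weil classes. For these the conjecture of Tate is known only in a few cases.

There is a constant `C > 0`, which depends only on `m`, such that for all prime powers `q`:

1. `W` is finite, of the exact order of magnitude `√q ^ (m (2 m + 1))`.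
2. At most `C √q ^ (order m)` elements of `W` are of Weil type, where `order m` is `5` for `m = 2`,
   `10` for `m = 3` and `m ^ 2` for `m ≥ 4`.
3. If `q > C`, there are at least `√q ^ (order m) / C` elements `f` of `W` which are ordinary,
   irreducible and of Weil type, and for which
   * there are exotic Tate classes of codimension `m` on `A` itself, over the field with `q`
     elements (`ExoticInCodim`);
   * all Tate classes on all powers of `A`, over all extensions of the field with `q` elements, are
     polynomials in the Tate classes of codimensions one and `m` over the field with `q` elements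
     (`GeneratedInCodim`);
   * the conjecture of Tate for the powers of `A` in all codimensions, for the Chow groups and every
     Weil cohomology, follows from its part in codimension `m` (`TateFromCodim`).

So for every `m ≥ 2` the number of the isogeny classes of abelian varieties of Weil type of dimension
`2 m` over the field with `q` elements is of the exact order of magnitude `√q ^ (order m)`: `q ^ (5 /
2)` for fourfolds, `q ^ 5` for sixfolds, `q ^ 8` for eightfolds. There is no restriction on the Newton
polygons or the decomposition of `A` for the upper bound, and the fields `K` are arbitrary. For `m ≤ 3`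
there are many fields `K`, of discriminants up to a power of `q`; for `m ≥ 4` almost all come
from finitely many fields.

Idea of the proof. `h` is determined by `ζ` and its first `m` coefficients, the last one of which
lies on a line, since `h` has the symmetry `h (q / X) = ζ' X ^ (- 2 m) h̄ (X)`. All these lie in
lattices of rank two or one, whose sizes are bounded by Cauchy-Schwarz in terms of the discriminants, and
the sum over the discriminants gives the upper bound. For the lower bound one takes `ζ = 1` and
polynomials `h` close to `(X ^ 2 + q) ^ m`, whose norms are Weil polynomials, with reductions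
modulo two auxiliary primes which split in `K` such that the Galois group of `h` over `K` is doubly
transitive on the roots of `h`. The relations between the roots form a stable subspace under this
group, ordinarity excludes the trivial relations, and so there is only the relation of the Weil
classes.

The statements of the steps (`Pool.Agent.H857.WT.Core`) were proved by members of the team: helpers
113, 115, 120, 122, 168, 229, 271, 295, 297, 333, 337, 342, 348, 628, 643, 686, 721, 857, 870, 955 and
969.
-/

set_option autoImplicit false

namespace Pool.Agent.Results.MP_ee618e_ag.WeilType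

open Polynomial Pool.Agent.H857.WT Pool.Agent.H857.SX

/-- **Abelian varieties of Weil type over finite fields.** -/
theorem result (m : ℕ) (hm : 2 ≤ m) : ∃ C : ℝ, 0 < C ∧
    ∀ (p : ℕ) [Fact p.Prime] (a : ℕ), 0 < a →
      -- all isogeny classes
      ((weilPolynomials p a (2 * m)).Finite ∧
        Real.sqrt ((p : ℝ) ^ a) ^ (m * (2 * m + 1)) ≤ C * (weilPolynomials p a (2 * m)).ncard ∧
        (weilPolynomials p a (2 * m)).ncard ≤ C * Real.sqrt ((p : ℝ) ^ a) ^ (m * (2 * m + 1))) ∧
      -- the isogeny classes of Weil type: upper bound
      ({f ∈ weilPolynomials p a (2 * m) | OfWeilType (p ^ a) m f}.ncard : ℝ) ≤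
        C * Real.sqrt ((p : ℝ) ^ a) ^ order m ∧
      -- lower bound
      (C < (p : ℝ) ^ a → Real.sqrt ((p : ℝ) ^ a) ^ order m ≤ C *
        ({f ∈ weilPolynomials p a (2 * m) |
          IsCoprime (f.coeff (2 * m)) ((p ^ a : ℕ) : ℤ) ∧ Irreducible f ∧
            OfWeilType (p ^ a) m f ∧ ExoticInCodim (p ^ a) m f ∧
            GeneratedInCodim m (p ^ a) f ∧ TateFromCodim m (p ^ a) f}.ncard : ℝ)) := by
  obtain ⟨C, hC, h⟩ := main all_w3 all_w8 Pool.Agent.H628.WTw9.w9 Pool.Agent.H628.WTw9.w10
    Pool.Agent.H229.WT.w11 Pool.Agent.H643.WT.w12 Pool.Agent.H686.WT.w13 Pool.Agent.H297.WT.w14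
    all_w15a all_w15b Pool.Agent.H168.WTW16.w16 Pool.Agent.H342.WTc.w17 all_w18 m hm
  refine ⟨C, hC, fun p _ a ha => ?_⟩
  obtain ⟨h1, h2, h3⟩ := h p a ha
  refine ⟨h1, h2, fun hq => (h3 hq).trans (mul_le_mul_of_nonneg_left ?_ hC.le)⟩
  have h4 : {f ∈ Pool.Agent.H857.PA.newtonWeil p a (2 * m) | IsGood (p ^ a) m f} ⊆
      {f ∈ weilPolynomials p a (2 * m) |
          IsCoprime (f.coeff (2 * m)) ((p ^ a : ℕ) : ℤ) ∧ Irreducible f ∧
            OfWeilType (p ^ a) m f ∧ ExoticInCodim (p ^ a) m f ∧
            GeneratedInCodim m (p ^ a) f ∧ TateFromCodim m (p ^ a) f} := fun f hf =>
    ⟨hf.1, hf.2.ordinary, hf.2.irreducible, hf.2.weil, hf.2.exotic, hf.2.generated, hf.2.tate⟩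
  have hfin : (weilPolynomials p a (2 * m)).Finite := h1.1
  exact_mod_cast Set.ncard_le_ncard h4 (hfin.subset fun f hf => hf.1)

end Pool.Agent.Results.MP_ee618e_ag.WeilType
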